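import Mathlib
import Pool.Agent.X317.GD.XF
import Pool.Agent.X317.GD.IA2
import Pool.Agent.X317.GD.AGL

/-!
# MP_b87388_al: a finite group for which the two global dimensions differ
-/

set_option autoImplicit false
set_option linter.all false

namespace Pool.Agent.Results.MP_b87388_al.GldimDiffer

open Pool.Agent.X317.GD CategoryTheory

universe v u

/-- The global dimension of an abelian category: the supremum of the projective dimensions of its
objects. -/
noncomputable def gldim (C : Type u) [Category.{v} C] [Abelian C] : WithBot ℕ∞ :=
  ⨆ X : C, projectiveDimension X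

/-- Rational coefficient systems: contravariant functors from the orbit category to rational vector
spaces. -/
abbrev Coef (G : Type) [Group G] := (Orb G)ᵒᵖ ⥤ ModuleCat.{0} ℚ

/-- There is a finite group (of order `56`) such that the rational incidence algebra of the poset of
conjugacy classes of subgroups has global dimension at most `2`, the category of rational
coefficient systems has global dimension at least `3`, and so the two differ. -/
theorem result : ∃ (G : Type) (_ : Group G) (_ : Finite G), Nat.card G = 56 ∧
    gldim (ModuleCat.{0} (IncidenceAlgebra ℚ (Cls G))) ≤ 2 ∧ 3 ≤ gldim (Coef G) ∧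
    gldim (ModuleCat.{0} (IncidenceAlgebra ℚ (Cls G))) ≠ gldim (Coef G) := by
  have h8 : Nat.card (GaloisField 2 3) = 8 := by
    rw [GaloisField.card 2 3 (by norm_num)]
    norm_num
  haveI : Finite (GaloisField 2 3) := Nat.finite_of_card_ne_zero (by rw [h8]; norm_num)
  haveI : Finite (Aff (GaloisField 2 3)) := Finite.of_equiv _ (affEquiv (GaloisField 2 3)).symm
  have hV := good (GaloisField 2 3) h8
  have h1 : gldim (ModuleCat.{0} (IncidenceAlgebra ℚ (Cls (Aff (GaloisField 2 3))))) ≤ 2 := by
    apply iSup_le
    intro M
    have h2 : HasProjectiveDimensionLT M 3 := pd_all (cls_cond hV) M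
    exact (projectiveDimension_le_iff M 2).2 h2
  have h3 : 3 ≤ gldim (Coef (Aff (GaloisField 2 3))) := by
    refine le_trans ?_ (le_iSup (fun X : Coef (Aff (GaloisField 2 3)) => projectiveDimension X)
      (XX (lin (GaloisField 2 3)).ker))
    exact (projectiveDimension_ge_iff _ 3).2 (not_pd hV)
  refine ⟨Aff (GaloisField 2 3), inferInstance, inferInstance, hV.card_G, h1, h3, ?_⟩
  intro h
  rw [← h] at h3
  have h4 : (3 : WithBot ℕ∞) ≤ 2 := h3.trans h1
  exact absurd h4 (by decide)

end Pool.Agent.Results.MP_b87388_al.GldimDiffer
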